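import Pool.Agent.H64.EV.Targets

/-!
# TS4: the contraction of the first two factors of the plane, in the pairing
-/

set_option autoImplicit false
set_option linter.unusedSectionVars false

open Matrix Pool.Agent.H64.CC Pool.Agent.H2.NL Pool.Agent.H64.EV

namespace Pool.Agent.H7.EV

private theorem sum_vec {K : Type} [Field K] (n : ℕ) (G : List Bool → K) :
    ∑ σ : List.Vector Bool (n + 1), G σ.1 = ∑ b : Bool, ∑ v : List.Vector Bool n, G (b :: v.1) := by
  rw [← Fintype.sum_prod_type' (fun (b : Bool) (v : List.Vector Bool n) => G (b :: v.1))]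
  refine (Function.Bijective.sum_comp (e := fun x : Bool × List.Vector Bool n => x.1 ::ᵥ x.2)
    ⟨?_, ?_⟩ (fun σ : List.Vector Bool (n + 1) => G σ.1)).symm
  · rintro ⟨b, v⟩ ⟨b', v'⟩ h
    have h1 := congrArg List.Vector.head h
    have h2 := congrArg List.Vector.tail h
    simp only [List.Vector.head_cons, List.Vector.tail_cons] at h1 h2
    rw [h1, h2]
  · intro v
    exact ⟨(v.head, v.tail), List.Vector.cons_head_tail v⟩

private theorem zip_fs {α β : Type} : ∀ w : List (α × β),
    (w.map Prod.fst).zip (w.map Prod.snd) = w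
  | [] => rfl
  | (a, b) :: w => by rw [List.map_cons, List.map_cons, List.zip_cons_cons, zip_fs w]

section form

variable {K : Type} [Field K] {I : Type} [Fintype I] [DecidableEq I] (F : OForm K I)

private theorem Pr_congr (n : ℕ) : ∀ f f' g g' : List I → K,
    (∀ w : List I, w.length = n → f w = f' w) → (∀ w : List I, w.length = n → g w = g' w) →
    F.Pr n f g = F.Pr n f' g' := by
  induction n with
  | zero =>
    intro f f' g g' hf hg
    show f [] * g [] = f' [] * g' []
    rw [hf [] rfl, hg [] rfl]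
  | succ n ih =>
    intro f f' g g' hf hg
    refine Finset.sum_congr rfl fun a _ => ?_
    rw [ih (fun l => f (a :: l)) (fun l => f' (a :: l)) (fun l => g (F.st a :: l))
      (fun l => g' (F.st a :: l)) (fun w hw => hf _ (by rw [List.length_cons, hw]))
      (fun w hw => hg _ (by rw [List.length_cons, hw]))]

private theorem Pr_smul (n : ℕ) (x y : K) : ∀ f g : List I → K,
    F.Pr n (fun w => x * f w) (fun w => y * g w) = x * y * F.Pr n f g := by
  induction n with
  | zero =>
    intro f g
    show x * f [] * (y * g []) = x * y * (f [] * g [])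
    ring
  | succ n ih =>
    intro f g
    show ∑ a, F.c a * F.Pr n (fun l => x * f (a :: l)) (fun l => y * g (F.st a :: l)) =
      x * y * ∑ a, F.c a * F.Pr n (fun l => f (a :: l)) (fun l => g (F.st a :: l))
    rw [Finset.mul_sum]
    refine Finset.sum_congr rfl fun a _ => ?_
    rw [ih (fun l => f (a :: l)) (fun l => g (F.st a :: l))]
    ring

/-- the contraction of `f`, if `f` is minus the exchanged `g` -/
private theorem con_neg (f g : List I → K) (w : List I)
    (h : ∀ a b : I, f (a :: b :: w) = -(ks K (F.o a) (F.o b) * g (b :: a :: w))) :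
    con F.η 0 f w = -con F.η 0 g w ∧ F.con' f w = -F.con' g w := by
  have h0 := F.con_append [] f w
  have h0' := F.con_append [] g w
  simp only [List.length_nil, List.nil_append] at h0 h0'
  constructor
  · rw [h0, h0', ← F.sum_st (fun a => F.c a * g (a :: F.st a :: w)), ← Finset.sum_neg_distrib]
    refine Finset.sum_congr rfl fun a _ => ?_
    rw [h, F.o_st, ks_self, F.st_st, F.c_st]
    ring
  · show ∑ a, F.c a * f (F.st a :: a :: w) = -∑ a, F.c a * g (F.st a :: a :: w)
    rw [← F.sum_st (fun a => F.c a * g (F.st a :: a :: w)), ← Finset.sum_neg_distrib]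
    refine Finset.sum_congr rfl fun a _ => ?_
    rw [h, F.o_st, ks_self, F.st_st, F.c_st]
    ring

private theorem cmp_ex (hTC1 : T_TC1) (n : ℕ) (t : List (I × Bool) → K)
    (ht : Symm F.tl.o (n + 2) t) (b b' : Bool) (r : List Bool) (hr : r.length = n) (w : List I)
    (hw : w.length = n) :
    con F.η 0 (F.cmp t (b :: b' :: r)) w = -con F.η 0 (F.cmp t (b' :: b :: r)) w ∧
    F.con' (F.cmp t (b :: b' :: r)) w = -F.con' (F.cmp t (b' :: b :: r)) w := by
  refine con_neg F _ _ w fun a a' => ?_
  have h1 := (hTC1 K I F).1 0 t (b :: b' :: r) (a :: a' :: w) (by simp [hr, hw])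
    (by simp)
  have h2 : F.cmp (sw F.tl.o 0 t) (b :: b' :: r) (a :: a' :: w) =
      F.cmp t (b :: b' :: r) (a :: a' :: w) := by
    unfold OForm.cmp
    rw [ht 0 (by omega) _ (by simp [hr, hw])]
  rw [← h2, h1]
  rfl

end form

private theorem main (hTC1 : T_TC1) (hTC2 : T_TC2) (hTS1 : T_TS1) {K : Type} [Field K] [CharZero K]
    {I : Type} [Fintype I] [DecidableEq I] (F : OForm K I) (n : ℕ) (t t' : List (I × Bool) → K)
    (ht : Symm F.tl.o (n + 2) t) (ht' : Symm F.tl.o (n + 2) t')
    (hev : ∀ w : List (I × Bool), w.length = n → con F.tl.η 0 t w ≠ 0 →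
      Even (odds F.o (w.map Prod.fst))) :
    2 * ∑ σ : List.Vector Bool (n + 2), (-1) ^ (σ.1.count true) *
      F.Pr n (con F.η 0 (F.cmp t σ.1)) (F.con' (F.cmp t' (σ.1.map not))) =
    -Pr F.tl n (con F.tl.η 0 t) (con' F.tl t') := by
  rw [hTS1 K I F n _ _ hev]
  rw [sum_vec (n + 1) (fun l => (-1) ^ (l.count true) *
      F.Pr n (con F.η 0 (F.cmp t l)) (F.con' (F.cmp t' (l.map not))))]
  simp only [Fintype.sum_bool]
  rw [sum_vec n (fun l => (-1) ^ ((true :: l).count true) *
      F.Pr n (con F.η 0 (F.cmp t (true :: l))) (F.con' (F.cmp t' ((true :: l).map not)))),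
    sum_vec n (fun l => (-1) ^ ((false :: l).count true) *
      F.Pr n (con F.η 0 (F.cmp t (false :: l))) (F.con' (F.cmp t' ((false :: l).map not))))]
  simp only [Fintype.sum_bool]
  have hbb : ∀ (b : Bool) (r : List.Vector Bool n) (g : List I → K),
      F.Pr n (con F.η 0 (F.cmp t (b :: b :: r.1))) g = 0 := by
    intro b r g
    have h1 : F.Pr n (con F.η 0 (F.cmp t (b :: b :: r.1))) g =
        F.Pr n (fun w => 0 * (0 : K)) (fun w => 1 * g w) := by
      refine Pr_congr F n _ _ _ _ (fun w hw => ?_) (fun w _ => (one_mul _).symm)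
      have h2 := (cmp_ex F hTC1 n t ht b b r.1 r.2 w hw).1
      rw [zero_mul]
      exact self_eq_neg.1 h2
    rw [h1, Pr_smul F n 0 1 (fun _ => 0) g, zero_mul, zero_mul]
  have hft : ∀ r : List.Vector Bool n,
      4 * F.Pr n (con F.η 0 (F.cmp t (false :: true :: r.1)))
        (F.con' (F.cmp t' (true :: false :: r.1.map not))) =
      F.Pr n (F.cmp (con F.tl.η 0 t) r.1) (F.cmp (con' F.tl t') (r.1.map not)) := by
    intro r
    have h4 : (4 : K) = 2 * 2 := by norm_num
    rw [h4, ← Pr_smul F n 2 2]
    refine Pr_congr F n _ _ _ _ (fun w hw => ?_) (fun w hw => ?_)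
    · rw [(hTC2 K I F).1 0 t r.1 w (by rw [r.2, hw]) (Nat.zero_le _)]
      show 2 * con F.η 0 (F.cmp t (false :: true :: r.1)) w =
        con F.η 0 (F.cmp t (false :: true :: r.1)) w - con F.η 0 (F.cmp t (true :: false :: r.1)) w
      rw [(cmp_ex F hTC1 n t ht true false r.1 r.2 w hw).1]
      ring
    · rw [(hTC2 K I F).2 t' (r.1.map not) w (by rw [List.length_map, r.2, hw])]
      rw [(cmp_ex F hTC1 n t' ht' false true (r.1.map not) (by rw [List.length_map, r.2]) w hw).2]
      ring
  have htf : ∀ r : List.Vector Bool n,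
      F.Pr n (con F.η 0 (F.cmp t (true :: false :: r.1)))
        (F.con' (F.cmp t' (false :: true :: r.1.map not))) =
      F.Pr n (con F.η 0 (F.cmp t (false :: true :: r.1)))
        (F.con' (F.cmp t' (true :: false :: r.1.map not))) := by
    intro r
    have h1 : F.Pr n (con F.η 0 (F.cmp t (true :: false :: r.1)))
        (F.con' (F.cmp t' (false :: true :: r.1.map not))) =
        F.Pr n (fun w => (-1) * con F.η 0 (F.cmp t (false :: true :: r.1)) w)
        (fun w => (-1) * F.con' (F.cmp t' (true :: false :: r.1.map not)) w) := by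
      refine Pr_congr F n _ _ _ _ (fun w hw => ?_) (fun w hw => ?_)
      · rw [(cmp_ex F hTC1 n t ht true false r.1 r.2 w hw).1]
        ring
      · rw [(cmp_ex F hTC1 n t' ht' false true (r.1.map not) (by rw [List.length_map, r.2]) w hw).2]
        ring
    rw [h1, Pr_smul F n (-1) (-1)]
    ring
  have hsum : ∀ f : List.Vector Bool n → K, (∀ r, f r = 0) → ∑ r, f r = 0 :=
    fun f hf => Finset.sum_eq_zero fun r _ => hf r
  rw [hsum (fun v : List.Vector Bool n => (-1) ^ (List.count true (true :: true :: v.1)) *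
      F.Pr n (con F.η 0 (F.cmp t (true :: true :: v.1)))
        (F.con' (F.cmp t' (List.map not (true :: true :: v.1)))))
      (fun r => by rw [hbb, mul_zero]),
    hsum (fun v : List.Vector Bool n => (-1) ^ (List.count true (false :: false :: v.1)) *
      F.Pr n (con F.η 0 (F.cmp t (false :: false :: v.1)))
        (F.con' (F.cmp t' (List.map not (false :: false :: v.1)))))
      (fun r => by rw [hbb, mul_zero]), zero_add, add_zero, mul_add, Finset.mul_sum, Finset.mul_sum,
    ← Finset.sum_add_distrib, ← Finset.sum_neg_distrib]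
  refine Finset.sum_congr rfl fun r _ => ?_
  have e1 : List.count true (true :: false :: r.1) = List.count true r.1 + 1 := by simp
  have e2 : List.count true (false :: true :: r.1) = List.count true r.1 + 1 := by simp
  have e3 : List.map not (true :: false :: r.1) = false :: true :: List.map not r.1 := rfl
  have e4 : List.map not (false :: true :: r.1) = true :: false :: List.map not r.1 := rfl
  rw [e1, e2, e3, e4, htf, ← hft]
  ring

theorem pf_TS4 (hTC1 : T_TC1) (hTC2 : T_TC2) (hTS1 : T_TS1) (hTCA : T_TCA) : T_TS4 := by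
  intro K _ _ I _ _ F A hA k t t' hk ht hS hS'
  obtain ⟨m, rfl⟩ : ∃ m, k = m + 1 := ⟨k - 1, by omega⟩
  refine main hTC1 hTC2 hTS1 F (2 * m) t t' hS hS' ?_
  intro w hw hne
  have h1 : con F.tl.η 0 t ∈ F.TA A m := (hTCA K I F A hA).con m 0 t ht (Nat.zero_le _)
  have h2 : F.cmp (con F.tl.η 0 t) (w.map Prod.snd) ∈ A m :=
    h1 (w.map Prod.snd) (by rw [List.length_map, hw])
  refine hA.even m _ (w.map Prod.fst) h2 (by rw [List.length_map, hw]) ?_
  unfold OForm.cmp
  rw [zip_fs]
  exact mul_ne_zero (inv_ne_zero (F.lw_ne w 0)) hne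

end Pool.Agent.H7.EV
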